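import Mathlib
import Pool.Agent.Helper772.MV.Univ
import Pool.Agent.Helper772.MV.CertT

/-!
# Short linear relations among the coefficients of univalent functions

For every `m ≥ 1` every exponent larger than `-1/2 + (1/2) (9/25)^(m-1)` is admissible, so that
`α_m^* ≤ -1/2 + (1/2) (9/25)^(m-1)`; for instance `α_2^* ≤ -0.32` (the lower bound given by the
star-like functions is `-1/3`).
-/

open MeasureTheory Metric Set
open scoped ENNReal Real

namespace Pool.Agent.Results.MP_d6acc2_an.GeometricBound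

/-- the class `S` of normalised univalent functions -/
def ClassS (f : ℂ → ℂ) : Prop :=
  DifferentiableOn ℂ f (ball (0:ℂ) 1) ∧ InjOn f (ball (0:ℂ) 1) ∧ f 0 = 0 ∧ deriv f 0 = 1

/-- Taylor coefficients at `0` -/
noncomputable def taylorCoeff (f : ℂ → ℂ) (n : ℕ) : ℂ := iteratedDeriv n f 0 / (n.factorial : ℂ)

/-- `α` is admissible for `m` -/
def AdmissibleS (m : ℕ) (α : ℝ) : Prop :=
  ∀ f : ℂ → ℂ, ClassS f → ∀ k : ℕ, 1 ≤ k → ∃ K : ℝ, ∀ n : ℕ, 1 ≤ n →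
    ∃ c : ℕ → ℂ, c 0 = 1 ∧ (1 / 4 : ℝ) ^ m ≤ ‖c m‖ ∧
      ∀ j ≤ k, ‖∑ i ∈ Finset.range (m + 1), c i * taylorCoeff f (n + j + i)‖ ≤ K * (n : ℝ) ^ α

/-- `α_m^*`, the infimum of the admissible exponents (in the extended reals) -/
noncomputable def alphaStar (m : ℕ) : EReal :=
  sInf ((fun a : ℝ => (a : EReal)) '' {α : ℝ | AdmissibleS m α})

theorem admissibleS (m : ℕ) (hm : 1 ≤ m) (α : ℝ)
    (hα : -1 / 2 + 1 / 2 * (9 / 25 : ℝ) ^ (m - 1) < α) : AdmissibleS m α := by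
  obtain ⟨k, rfl⟩ : ∃ k, m = k + 1 := ⟨m - 1, by omega⟩
  rw [Nat.add_sub_cancel] at hα
  have h1 : MeanVal.Admissible (k + 1) 1 α := by
    apply MeanVal.upper_two k 1 (by norm_num) le_rfl α
    have h2 : ((4 * (1:ℝ) - 1) / (4 * 1 + 1)) ^ (2 * k) = (9 / 25 : ℝ) ^ k := by
      rw [pow_mul]; norm_num
    rw [h2]
    norm_num at hα ⊢
    linarith
  intro f hf j hj
  obtain ⟨K, hK⟩ := h1 f (MeanVal.areaBound_meanValent (MeanVal.areaBound_of_injOn hf.1 hf.2.1)) j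
    (by omega)
  exact ⟨K, fun n hn => hK n (by omega)⟩

/-- **Main theorem**: `α_m^* ≤ -1/2 + (1/2) (9/25)^(m-1)` for every `m ≥ 1`. -/
theorem result (m : ℕ) (hm : 1 ≤ m) :
    alphaStar m ≤ ((-1 / 2 + 1 / 2 * (9 / 25 : ℝ) ^ (m - 1) : ℝ) : EReal) := by
  apply le_of_forall_gt
  intro c hc
  obtain ⟨d, hbd, hdc⟩ := EReal.lt_iff_exists_real_btwn.1 hc
  have hbd' : -1 / 2 + 1 / 2 * (9 / 25 : ℝ) ^ (m - 1) < d := EReal.coe_lt_coe_iff.1 hbd
  exact lt_of_le_of_lt (sInf_le ⟨d, admissibleS m hm d hbd', rfl⟩) hdc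

end Pool.Agent.Results.MP_d6acc2_an.GeometricBound
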